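import Pool.Agent.W221.NS.Stm
import Pool.Agent.H459R3.NS.Ibp
import Pool.Agent.H459R3.NS.Four

open MeasureTheory Set Metric
open scoped ContDiff

namespace Pool.Agent.W737.MD

open H459R3.NS W221.NS

attribute [local instance] instMeasureSpaceUnitAddCircle

/-- the function on the torus -/
noncomputable def liftR (f : V → ℝ) (t : UnitAddTorus (Fin 3)) : ℝ :=
  f (Function.surjInv cov_surj t)

theorem liftR_cov {f : V → ℝ} (hf : Per f) (x : V) : liftR f (cov x) = f x :=
  hf.eq_of_cov (Function.surjInv_eq cov_surj (cov x))

theorem int_trans {f : V → ℝ} (hf : Per f) (y : V) :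
    ∫ x in cube, f (x + y) = ∫ x in cube, f x := by
  have h1 : ∫ x in cube, f (x + y) = ∫ x in cube, (fun t => liftR f (t + cov y)) (cov x) := by
    congr 1
    funext x
    change f (x + y) = liftR f (cov x + cov y)
    have : cov x + cov y = cov (x + y) := by
      funext i
      simp [cov]
    rw [this, liftR_cov hf]
  have h2 : ∫ x in cube, f x = ∫ x in cube, (fun t => liftR f t) (cov x) := by
    congr 1
    funext x
    change f x = liftR f (cov x)
    rw [liftR_cov hf]
  have h3 := integral_torus (fun t => liftR f (t + cov y))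
  have h4 := integral_torus (fun t => liftR f t)
  rw [h1, h2]
  have hI : (volume : Measure (UnitAddTorus (Fin 3))).IsAddRightInvariant := by
    exact Measure.pi.isAddRightInvariant (fun _ : Fin 3 => (AddCircle.haarAddCircle :
      Measure UnitAddCircle))
  exact h3.symm.trans ((integral_add_right_eq_self (μ := (volume : Measure (UnitAddTorus (Fin 3))))
    (fun t => liftR f t) (cov y)).trans h4)

theorem ball_int (g : V → ℝ) (x : V) (ρ : ℝ) :
    ∫ y in ball x ρ, g y = ∫ y in ball (0 : V) ρ, g (x + y) := by
  have h := (measurePreserving_add_left (volume : Measure V) x).setIntegral_preimage_emb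
    (measurableEmbedding_addLeft x) g (ball x ρ)
  rw [← h]
  congr 2
  ext y
  simp [mem_ball, dist_eq_norm]

theorem ball_closed (ρ : ℝ) : ball (0 : V) ρ =ᵐ[volume] closedBall (0 : V) ρ := by
  apply ae_eq_of_subset_of_measure_ge ball_subset_closedBall
  · rw [Measure.addHaar_closedBall_eq_addHaar_ball]
  · exact measurableSet_ball.nullMeasurableSet
  · exact (isCompact_closedBall (0 : V) ρ).measure_lt_top.ne

theorem t_AVG : S_AVG := by
  intro u hu ρ hρ
  have hsp : ∀ i, SP (fun y => u y i) := fun i =>
    ⟨(contDiff_pi.mp hu.1) i, fun j x => by rw [hu.2 j x]⟩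
  have hpd : ∀ i j, SP (pd j (fun y => u y i)) := fun i j => (hsp i).pd j
  have hgc : Continuous (gsq u) := by
    unfold gsq
    exact continuous_finsetSum _ fun i _ => continuous_finsetSum _ fun j _ =>
      ((hpd i j).cont).pow 2
  have hgp : Per (gsq u) := by
    intro k x
    unfold gsq
    refine Finset.sum_congr rfl fun i _ => Finset.sum_congr rfl fun j _ => ?_
    rw [(hpd i j).per k x]
  have hF : Continuous (Function.uncurry fun (x y : V) => gsq u (x + y)) :=
    hgc.comp (continuous_fst.add continuous_snd)
  have hav : ∀ x, avg u x ρ = (∫ y in closedBall (0 : V) ρ, gsq u (x + y)) / (2 * ρ) ^ 3 := by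
    intro x
    unfold avg
    rw [ball_int, setIntegral_congr_set (ball_closed ρ)]
  have hfun : (fun x => avg u x ρ) =
      fun x => (∫ y in closedBall (0 : V) ρ, gsq u (x + y)) / (2 * ρ) ^ 3 := funext hav
  refine ⟨?_, ?_, ?_⟩
  · rw [hfun]
    exact (continuous_parametric_integral_of_continuous hF (isCompact_closedBall 0 ρ)).div_const _
  · intro i x
    change avg u (x + Pi.single i 1) ρ = avg u x ρ
    rw [hav, hav]
    congr 1
    congr 1
    funext y
    rw [add_right_comm, hgp]
  · have h1 : ∫ x in cube, avg u x ρ =
        (∫ x in cube, ∫ y in closedBall (0 : V) ρ, gsq u (x + y)) / (2 * ρ) ^ 3 := by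
      rw [hfun, integral_div]
    have h2 : ∫ x in cube, ∫ y in closedBall (0 : V) ρ, gsq u (x + y) =
        ∫ y in closedBall (0 : V) ρ, ∫ x in cube, gsq u (x + y) := by
      apply integral_integral_swap
      rw [Measure.prod_restrict]
      exact hF.continuousOn.integrableOn_compact (isCompact_Icc.prod (isCompact_closedBall 0 ρ))
    have h3 : ∀ y : V, ∫ x in cube, gsq u (x + y) = ∫ x in cube, gsq u x := int_trans hgp
    have h4 : ∫ x in cube, gsq u x = enstrophy u := by
      unfold gsq enstrophy
      rw [integral_finsetSum]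
      · refine Finset.sum_congr rfl fun i _ => ?_
        rw [integral_finsetSum]
        intro j _
        exact integrableOn_cube (((hpd i j).cont).pow 2)
      · intro i _
        exact integrableOn_cube (continuous_finsetSum _ fun j _ => ((hpd i j).cont).pow 2)
    have h5 : volume.real (closedBall (0 : V) ρ) = (2 * ρ) ^ 3 := by
      rw [Measure.real, Real.volume_pi_closedBall _ hρ.le]
      simp
      positivity
    rw [h1, h2]
    simp only [h3, h4]
    rw [setIntegral_const, h5, smul_eq_mul]
    field_simp

end Pool.Agent.W737.MD
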